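import Pool.Agent.Run7.h787.SZ.Defs
import Pool.Agent.Run7.h787.ST.Final4
import Pool.Agent.Run7.h341.ST.DIR
import Pool.Agent.Run7.h341.ST.ZL
import Pool.Agent.Run7.h227.ST.LZ

/-!
# Stark's conjecture, removal of primes: the final theorems in terms of the definitions of `SZ`
-/

set_option autoImplicit false

open NumberField IsDedekindDomain

open scoped Classical

noncomputable section

namespace Pool.Agent.Run7.h787.SZ

variable {K : Type} [Field K] [NumberField K] [Algebra K ℝ]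

theorem stark_iff {w : K →+* ℝ} {H : IntermediateField K ℝ}
    {S : Finset (HeightOneSpectrum (𝓞 K))} : StarkZ w H S ↔ ST.StarkZ w H S := by
  constructor
  · rintro ⟨D, ε, h⟩
    exact ⟨⟨D.art, D.art_mul, D.art_frob, D.Z, D.analytic, D.series⟩, ε, h⟩
  · rintro ⟨D, ε, h⟩
    exact ⟨⟨D.art, D.art_mul, D.art_frob, D.Z, D.analytic, D.series⟩, ε, h⟩

theorem tate_iff {w : K →+* ℝ} {H : IntermediateField K ℝ}
    {S : Finset (HeightOneSpectrum (𝓞 K))} : StarkTateZ w H S ↔ ST.StarkTateZ w H S := by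
  constructor
  · rintro ⟨D, ε, h⟩
    exact ⟨⟨D.art, D.art_mul, D.art_frob, D.Z, D.analytic, D.series⟩, ε, h⟩
  · rintro ⟨D, ε, h⟩
    exact ⟨⟨D.art, D.art_mul, D.art_frob, D.Z, D.analytic, D.series⟩, ε, h⟩

theorem weak_iff {w : K →+* ℝ} {H : IntermediateField K ℝ}
    {S : Finset (HeightOneSpectrum (𝓞 K))} : WeakZ w H S ↔ ST.WeakZ w H S := by
  constructor
  · rintro ⟨D, ε, h⟩
    exact ⟨⟨D.art, D.art_mul, D.art_frob, D.Z, D.analytic, D.series⟩, ε, h⟩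
  · rintro ⟨D, ε, h⟩
    exact ⟨⟨D.art, D.art_mul, D.art_frob, D.Z, D.analytic, D.series⟩, ε, h⟩

theorem layer_eq (H : IntermediateField K ℝ) (n : ℕ) : layer H n = ST.ext H (ST.cy n) := by
  rw [Run7.h847.ST.cy_cos]
  rfl

theorem main_strong (w : K →+* ℝ) (hw : w ≠ algebraMap K ℝ)
    (S B : Finset (HeightOneSpectrum (𝓞 K))) (H : IntermediateField K ℝ) (r : ℕ) (hS : Over2 S)
    (hH : Allowed H S)
    (h : ∀ R : Finset (HeightOneSpectrum (𝓞 K)), Disjoint R (S ∪ B) → R.card = r →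
      ∀ n, StarkZ w (layer H n) (S ∪ R)) : StarkZ w H S ∧ ∀ n, StarkZ w (layer H n) S := by
  obtain ⟨h1, h2⟩ := ST.B.tower4
    (Pool.Agent.Run7.h341.ST.t_ZL Pool.Agent.Run7.h341.ST.t_DIR)
    (Pool.Agent.Run7.h227.ST.t_LZ Pool.Agent.Run7.h341.ST.t_DIR) w hw S B H r hS hH
    (fun R hR hr n => by rw [← layer_eq]; exact stark_iff.1 (h R hR hr n))
  exact ⟨stark_iff.2 h1, fun n => by rw [layer_eq]; exact stark_iff.2 (h2 n)⟩

theorem main_tate (w : K →+* ℝ) (hw : w ≠ algebraMap K ℝ)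
    (S B : Finset (HeightOneSpectrum (𝓞 K))) (H : IntermediateField K ℝ) (r : ℕ) (hS : Over2 S)
    (hH : Allowed H S)
    (h : ∀ R : Finset (HeightOneSpectrum (𝓞 K)), Disjoint R (S ∪ B) → R.card = r →
      ∀ n, StarkTateZ w (layer H n) (S ∪ R)) :
    StarkTateZ w H S ∧ ∀ n, StarkTateZ w (layer H n) S := by
  obtain ⟨h1, h2⟩ := ST.B.towerT4
    (Pool.Agent.Run7.h341.ST.t_ZL Pool.Agent.Run7.h341.ST.t_DIR)
    (Pool.Agent.Run7.h227.ST.t_LZ Pool.Agent.Run7.h341.ST.t_DIR) w hw S B H r hS hH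
    (fun R hR hr n => by rw [← layer_eq]; exact tate_iff.1 (h R hR hr n))
  exact ⟨tate_iff.2 h1, fun n => by rw [layer_eq]; exact tate_iff.2 (h2 n)⟩

theorem main_weak (w : K →+* ℝ) (hw : w ≠ algebraMap K ℝ)
    (S B : Finset (HeightOneSpectrum (𝓞 K))) (H : IntermediateField K ℝ) (r : ℕ) (hS : Over2 S)
    (hH : Allowed H S)
    (h : ∀ R : Finset (HeightOneSpectrum (𝓞 K)), Disjoint R (S ∪ B) → R.card = r →
      ∀ n, WeakZ w (layer H n) (S ∪ R)) : WeakZ w H S ∧ ∀ n, WeakZ w (layer H n) S := by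
  obtain ⟨h1, h2⟩ := ST.B.towerW4
    (Pool.Agent.Run7.h341.ST.t_ZL Pool.Agent.Run7.h341.ST.t_DIR)
    (Pool.Agent.Run7.h227.ST.t_LZ Pool.Agent.Run7.h341.ST.t_DIR) w hw S B H r hS hH
    (fun R hR hr n => by rw [← layer_eq]; exact weak_iff.1 (h R hR hr n))
  exact ⟨weak_iff.2 h1, fun n => by rw [layer_eq]; exact weak_iff.2 (h2 n)⟩

end Pool.Agent.Run7.h787.SZ
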