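import Mathlib

/-!
# Stark's rank one abelian conjecture at a split real place, with partial zeta functions

`K` is a number field with a fixed real embedding, the map `algebraMap K ℝ`. All extensions `H` of
`K` are subfields of `ℝ`, so that the place `K ⊆ ℝ` splits completely in the abelian ones.
-/

set_option autoImplicit false

open NumberField IsDedekindDomain

noncomputable section

namespace Pool.Agent.Run7.h787.SZ

variable {K : Type} [Field K] [NumberField K] [Algebra K ℝ]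

/-- `H` is a finite abelian extension of `K` (inside the real numbers). -/
def IsAb (H : IntermediateField K ℝ) : Prop := FiniteDimensional K H ∧ IsAbelianGalois K H

/-- The field `H(x)`. -/
def ext (H : IntermediateField K ℝ) (x : ℝ) : IntermediateField K ℝ :=
  H ⊔ IntermediateField.adjoin K {x}

/-- The Galois group of `H` over `K`. -/
abbrev Gal (H : IntermediateField K ℝ) : Type := H ≃ₐ[K] H

/-- `P` is a prime ideal of the ring of all real algebraic integers. -/
def IsRealPrime (P : Set ℝ) : Prop :=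
  (∀ x ∈ P, IsIntegral ℤ x) ∧ 0 ∈ P ∧ (∀ x ∈ P, ∀ y ∈ P, x + y ∈ P) ∧
  (∀ x y, IsIntegral ℤ x → y ∈ P → x * y ∈ P) ∧ 1 ∉ P ∧
  (∀ x y, IsIntegral ℤ x → IsIntegral ℤ y → x * y ∈ P → x ∈ P ∨ y ∈ P)

/-- `P` is a prime ideal of the ring of all real algebraic integers which lies over `p`. -/
def Over (p : HeightOneSpectrum (𝓞 K)) (P : Set ℝ) : Prop :=
  IsRealPrime P ∧ ∀ x : 𝓞 K, algebraMap K ℝ (x : K) ∈ P ↔ x ∈ p.asIdeal

/-- `g` is a Frobenius automorphism of `H` at all prime ideals over `p`. -/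
def IsFrob (H : IntermediateField K ℝ) (p : HeightOneSpectrum (𝓞 K)) (g : Gal H) : Prop :=
  ∀ P : Set ℝ, Over p P → ∀ x : H, IsIntegral ℤ (x : ℝ) →
    ((g x : H) : ℝ) - (x : ℝ) ^ Ideal.absNorm p.asIdeal ∈ P

/-- The prime ideal `p` of `K` is unramified in `H`: the inertia groups are trivial. -/
def Unram (H : IntermediateField K ℝ) (p : HeightOneSpectrum (𝓞 K)) : Prop :=
  ∀ P : Set ℝ, Over p P → ∀ g : Gal H,
    (∀ x : H, IsIntegral ℤ (x : ℝ) → ((g x : H) : ℝ) - (x : ℝ) ∈ P) → g = 1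

/-- The Artin symbols and the partial zeta functions of `H / K`, where `S` consists of the infinite
places and a finite set of prime ideals: `art` is multiplicative on the nonzero ideals and
`art 𝔭` is the Frobenius automorphism for `𝔭` outside `S`; `Z g` is holomorphic for `s ≠ 1` and
equal to `∑ N𝔞 ^ (-s)` for `Re s > 1`, where the sum is over the nonzero ideals `𝔞` prime to `S`
with Artin symbol `g`. -/
structure ZData (H : IntermediateField K ℝ) (S : Finset (HeightOneSpectrum (𝓞 K))) where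
  /-- the Artin symbol -/
  art : Ideal (𝓞 K) → Gal H
  art_mul : ∀ a b : Ideal (𝓞 K), a ≠ ⊥ → b ≠ ⊥ → art (a * b) = art a * art b
  art_frob : ∀ p, p ∉ S → IsFrob H p (art p.asIdeal)
  /-- the partial zeta function `ζ_S(g, s)` -/
  Z : Gal H → ℂ → ℂ
  analytic : ∀ g, DifferentiableOn ℂ (Z g) {1}ᶜ
  series : ∀ (g : Gal H) (s : ℂ), 1 < s.re →
    HasSum (fun a : {a : Ideal (𝓞 K) // a ≠ ⊥ ∧ (∀ p ∈ S, ¬ a ≤ p.asIdeal) ∧ art a = g} =>
      (Ideal.absNorm (a : Ideal (𝓞 K)) : ℂ) ^ (-s)) (Z g s)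

/-- `c` is the complex conjugation of `H` at a place over the real embedding `w` of `K`. -/
def IsConjAt (w : K →+* ℝ) (H : IntermediateField K ℝ) (c : Gal H) : Prop :=
  ∃ τ : H →+* ℂ, (∀ x : K, τ (algebraMap K H x) = ((w x : ℝ) : ℂ)) ∧
    ∀ x : H, τ (c x) = starRingEnd ℂ (τ x)

/-- The classical facts on the partial zeta functions at `s = 0`: they vanish, the derivatives for
`g c` and `g` are opposite when `c` is a complex conjugation over the real embedding `w`, and the
zeta function `∑ Z g` of `K` without the factors at `S` has a zero of order at least `#S + 1`. -/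
def VanZ (w : K →+* ℝ) {H : IntermediateField K ℝ} {S : Finset (HeightOneSpectrum (𝓞 K))}
    (D : ZData H S) : Prop :=
  (∀ g, D.Z g 0 = 0) ∧
  (∀ c g : Gal H, IsConjAt w H c → deriv (D.Z (g * c)) 0 = - deriv (D.Z g) 0) ∧
  (S.card : ℕ∞) + 1 ≤ analyticOrderAt (fun s => ∑ᶠ g : Gal H, D.Z g s) 0

/-- Absolute value one at all infinite places which are not over the place `K ⊆ ℝ`. -/
def ArchOne (H : IntermediateField K ℝ) (ε : H) : Prop :=
  ∀ τ : H →+* ℂ, (∃ x : K, τ (algebraMap K H x) ≠ ((algebraMap K ℝ x : ℝ) : ℂ)) → ‖τ ε‖ = 1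

/-- `x` is nonzero, and `x` and its inverse are algebraic integers. -/
def IsU (x : ℝ) : Prop := x ≠ 0 ∧ IsIntegral ℤ x ∧ IsIntegral ℤ x⁻¹

/-- Tate's form of Stark's conjecture for `H / K`, `S` and the real place `K ⊆ ℝ`. -/
def StarkZ (w : K →+* ℝ) (H : IntermediateField K ℝ)
    (S : Finset (HeightOneSpectrum (𝓞 K))) : Prop :=
  ∃ (D : ZData H S) (ε : H), VanZ w D ∧ 0 < (ε : ℝ) ∧ IsU (ε : ℝ) ∧ ArchOne H ε ∧
    (∀ g : Gal H, ((Real.log |((g ε : H) : ℝ)| : ℝ) : ℂ) = -2 * deriv (D.Z g) 0) ∧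
    IsAbelianGalois K (ext H (Real.sqrt (ε : ℝ)))

/-- Stark's conjecture without the root condition: the numbers `exp (- 2 ζ_S'(g, 0))` are conjugate
units of `H`, of absolute value one at the infinite places not over `K ⊆ ℝ`. -/
def WeakZ (w : K →+* ℝ) (H : IntermediateField K ℝ)
    (S : Finset (HeightOneSpectrum (𝓞 K))) : Prop :=
  ∃ (D : ZData H S) (ε : Gal H → H), VanZ w D ∧
    (∀ g, (deriv (D.Z g) 0).im = 0 ∧ ((ε g : H) : ℝ) = Real.exp (-2 * (deriv (D.Z g) 0).re)) ∧
    (∀ g h : Gal H, h (ε g) = ε (h * g)) ∧ (∀ g, IsU ((ε g : H) : ℝ)) ∧ (∀ g, ArchOne H (ε g))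

/-- The Stark-Tate conjecture: `WeakZ`, and the fields generated by the square roots of the units
are abelian over `K`. -/
def StarkTateZ (w : K →+* ℝ) (H : IntermediateField K ℝ)
    (S : Finset (HeightOneSpectrum (𝓞 K))) : Prop :=
  ∃ (D : ZData H S) (ε : Gal H → H), VanZ w D ∧
    (∀ g, (deriv (D.Z g) 0).im = 0 ∧ ((ε g : H) : ℝ) = Real.exp (-2 * (deriv (D.Z g) 0).re)) ∧
    (∀ g h : Gal H, h (ε g) = ε (h * g)) ∧ (∀ g, IsU ((ε g : H) : ℝ)) ∧ (∀ g, ArchOne H (ε g)) ∧
    ∀ g, IsAbelianGalois K (ext H (Real.sqrt ((ε g : H) : ℝ)))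

/-- `H ⊆ ℝ` is a finite abelian extension of `K` which is unramified outside `S`. -/
def Allowed (H : IntermediateField K ℝ) (S : Finset (HeightOneSpectrum (𝓞 K))) : Prop :=
  IsAb H ∧ ∀ p, p ∉ S → Unram H p

/-- `S` contains the prime ideals over `2`. -/
def Over2 (S : Finset (HeightOneSpectrum (𝓞 K))) : Prop :=
  ∀ p : HeightOneSpectrum (𝓞 K), (2 : 𝓞 K) ∈ p.asIdeal → p ∈ S

/-- The layers `H(2 cos (π / 2 ^ (n + 1)))` of the cyclotomic `ℤ₂`-extension of `H`. -/
def layer (H : IntermediateField K ℝ) (n : ℕ) : IntermediateField K ℝ :=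
  ext H (2 * Real.cos (Real.pi / 2 ^ (n + 1)))

end Pool.Agent.Run7.h787.SZ
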